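import Mathlib

set_option autoImplicit false

/-!
# A spectrally arbitrary sign pattern with a superpattern that is not spectrally arbitrary

`M4` is the pattern of order 4 of the problem file, `M4'` is obtained from it by replacing the zero
entry in row 3, column 1 by a minus sign.  If `X` is any spectrally arbitrary pattern (of order at
least 2) then `M4 ⊕ X` is spectrally arbitrary, because every real monic polynomial of degree at
least 6 has a monic factor of degree 4 which either has a positive constant term or is of the form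
`x ^ 2 (x - r) (x - s)`, and all such factors are characteristic polynomials of realizations of
`M4`.  On the other hand no realization of `M4'` is nilpotent, by the inequality between the
arithmetic and the geometric mean, so that no realization of `M4' ⊕ X` is nilpotent.
-/

namespace Pool.Agent.Results.MP_557f7f_co.SpectralSuperpattern

open Polynomial Matrix

/-- `A` is a realization of the sign pattern `S`. -/
def Realizes {n : ℕ} (A : Matrix (Fin n) (Fin n) ℝ) (S : Matrix (Fin n) (Fin n) SignType) : Prop :=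
  ∀ i j, SignType.sign (A i j) = S i j

/-- The sign pattern `S` is spectrally arbitrary: every monic real polynomial of degree `n` is the
characteristic polynomial of a realization of `S`. -/
def SpectrallyArbitrary {n : ℕ} (S : Matrix (Fin n) (Fin n) SignType) : Prop :=
  ∀ p : ℝ[X], p.Monic → p.natDegree = n →
    ∃ A : Matrix (Fin n) (Fin n) ℝ, Realizes A S ∧ A.charpoly = p

/-- `S'` is a superpattern of `S`: it agrees with `S` at every nonzero entry of `S`. -/
def IsSuperpattern {n : ℕ} (S' S : Matrix (Fin n) (Fin n) SignType) : Prop :=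
  ∀ i j, S i j ≠ 0 → S' i j = S i j

/-- The direct sum of two sign patterns (block diagonal, with blocks `P` and `Q`). -/
def directSum {m n : ℕ} (P : Matrix (Fin m) (Fin m) SignType)
    (Q : Matrix (Fin n) (Fin n) SignType) : Matrix (Fin (m + n)) (Fin (m + n)) SignType :=
  Matrix.reindex finSumFinEquiv finSumFinEquiv (Matrix.fromBlocks P 0 0 Q)

/-- The pattern `M₄` of the problem file. -/
def M4 : Matrix (Fin 4) (Fin 4) SignType :=
  !![1, 1, -1, 0;
     -1, -1, 1, 0;
     0, 0, 0, -1;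
     1, 1, 0, 0]

/-- The superpattern of `M₄` with an additional minus sign in row 3, column 1. -/
def M4' : Matrix (Fin 4) (Fin 4) SignType :=
  !![1, 1, -1, 0;
     -1, -1, 1, 0;
     -1, 0, 0, -1;
     1, 1, 0, 0]

/-- The pattern `T₂`. -/
def T2 : Matrix (Fin 2) (Fin 2) SignType := !![1, 1; -1, -1]

/-- The pattern `T₃`. -/
def T3 : Matrix (Fin 3) (Fin 3) SignType := !![1, 1, 0; -1, 0, 1; 0, -1, -1]

/-- The pattern `M₄ ⊕ T₂`. -/
def S : Matrix (Fin 6) (Fin 6) SignType :=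
  !![1, 1, -1, 0, 0, 0;
     -1, -1, 1, 0, 0, 0;
     0, 0, 0, -1, 0, 0;
     1, 1, 0, 0, 0, 0;
     0, 0, 0, 0, 1, 1;
     0, 0, 0, 0, -1, -1]

/-- The superpattern of `M₄ ⊕ T₂` with an additional minus sign in row 3, column 1. -/
def S' : Matrix (Fin 6) (Fin 6) SignType :=
  !![1, 1, -1, 0, 0, 0;
     -1, -1, 1, 0, 0, 0;
     -1, 0, 0, -1, 0, 0;
     1, 1, 0, 0, 0, 0;
     0, 0, 0, 0, 1, 1;
     0, 0, 0, 0, -1, -1]

/-! ### Characteristic polynomials -/

theorem charpoly4 (a b c d e f g h k s : ℝ) :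
    (!![a, b, c, 0; d, e, f, 0; s, 0, 0, g; h, k, 0, 0] : Matrix (Fin 4) (Fin 4) ℝ).charpoly =
      X ^ 4 - C (a + e) * X ^ 3 + C (a * e - b * d - c * s) * X ^ 2
        - C (s * (b * f - c * e) + c * g * h + f * g * k) * X
        + C (g * (c * (e * h - d * k) + f * (a * k - b * h))) := by
  have h1 : charmatrix (!![a, b, c, 0; d, e, f, 0; s, 0, 0, g; h, k, 0, 0] :
      Matrix (Fin 4) (Fin 4) ℝ) =
      !![X - C a, -C b, -C c, 0; -C d, X - C e, -C f, 0; -C s, 0, X, -C g;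
        -C h, -C k, 0, X] := by
    ext i j : 2
    fin_cases i <;> fin_cases j <;> simp
  rw [Matrix.charpoly, h1]
  simp [Matrix.det_succ_row_zero, Fin.sum_univ_succ, Fin.succAbove]
  ring

theorem charpoly2 (a b c d : ℝ) :
    (!![a, b; c, d] : Matrix (Fin 2) (Fin 2) ℝ).charpoly =
      X ^ 2 - C (a + d) * X + C (a * d - b * c) := by
  have h1 : charmatrix (!![a, b; c, d] : Matrix (Fin 2) (Fin 2) ℝ) =
      !![X - C a, -C b; -C c, X - C d] := by
    ext i j : 2
    fin_cases i <;> fin_cases j <;> simp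
  rw [Matrix.charpoly, h1, Matrix.det_fin_two]
  simp
  ring

/-! ### Realizations -/

theorem realize_T2 (s t : ℝ) : ∃ A : Matrix (Fin 2) (Fin 2) ℝ, Realizes A T2 ∧
    A.charpoly = X ^ 2 - C s * X + C t := by
  have n1 := abs_nonneg s
  have n2 := abs_nonneg t
  have l1 := le_abs_self s
  have l2 := neg_abs_le t
  set a : ℝ := |s| + |t| + 1 with ha
  have ha0 : 0 < a := by rw [ha]; linarith
  have hd0 : 0 < a - s := by rw [ha]; linarith
  have hc0 : 0 < t + a * (a - s) := by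
    have h1 : |t| + 1 ≤ a := by rw [ha]; linarith
    have h2 : |t| + 1 ≤ a - s := by rw [ha]; linarith
    have h3 : (|t| + 1) * (|t| + 1) ≤ a * (a - s) := mul_le_mul h1 h2 (by linarith) (by linarith)
    nlinarith
  refine ⟨!![a, 1; -(t + a * (a - s)), -(a - s)], ?_, ?_⟩
  · intro i j
    fin_cases i <;> fin_cases j
    · exact sign_pos ha0
    · exact sign_pos one_pos
    · exact sign_neg (neg_neg_of_pos hc0)
    · exact sign_neg (neg_neg_of_pos hd0)
  · rw [charpoly2]
    congr 2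
    · congr 2
      ring
    · ring

theorem realize_M4 (E1 E2 E3 E4 β : ℝ) (h1 : 0 < β ^ 2 - E1 * β + E2) (h2 : 0 < E4 - E3 * β) :
    ∃ A : Matrix (Fin 4) (Fin 4) ℝ, Realizes A M4 ∧
      A.charpoly = X ^ 4 - C E1 * X ^ 3 + C E2 * X ^ 2 - C E3 * X + C E4 := by
  set N1 : ℝ := β ^ 2 - E1 * β + E2 with hN1
  set N2 : ℝ := E4 - E3 * β with hN2
  set L : ℝ := (2 * |β| + |E1| + 1) / N1 + (|E3| + 1) / N2 with hL
  have a1 := abs_nonneg β
  have a2 := abs_nonneg E1
  have a3 := abs_nonneg E3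
  have b1 := le_abs_self β
  have b1' := neg_abs_le β
  have b2 := neg_abs_le E1
  have b3 := neg_abs_le E3
  have hL1 : 0 < (2 * |β| + |E1| + 1) / N1 := div_pos (by linarith) h1
  have hL2 : 0 < (|E3| + 1) / N2 := div_pos (by linarith) h2
  have hL0 : 0 < L := by rw [hL]; linarith
  have hA : 2 * |β| + |E1| + 1 ≤ N1 * L := by
    rw [hL, mul_add, mul_div_cancel₀ _ h1.ne']
    have := mul_pos h1 hL2
    linarith
  have hB : |E3| + 1 ≤ N2 * L := by
    rw [hL, mul_add, mul_div_cancel₀ _ h2.ne']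
    have := mul_pos h2 hL1
    linarith
  have hQ : 0 < 1 / L := div_pos one_pos hL0
  have hLQ : L * (1 / L) = 1 := mul_div_cancel₀ _ hL0.ne'
  set Q : ℝ := 1 / L with hQdef
  have pa : 0 < N1 * L - β + E1 := by linarith
  have pb : 0 < N1 * L := by linarith
  have pd : 0 < N1 * L - 2 * β + E1 + Q := by linarith
  have pe : 0 < N1 * L - β := by linarith
  have ph : 0 < N2 * L + E3 := by linarith
  have pk : 0 < N2 * L := by linarith
  refine ⟨!![N1 * L - β + E1, N1 * L, -1, 0; -(N1 * L - 2 * β + E1 + Q), -(N1 * L - β), 1, 0;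
    0, 0, 0, -1; N2 * L + E3, N2 * L, 0, 0], ?_, ?_⟩
  · intro i j
    fin_cases i <;> fin_cases j
    · exact sign_pos pa
    · exact sign_pos pb
    · exact sign_neg (neg_neg_of_pos one_pos)
    · exact sign_zero
    · exact sign_neg (neg_neg_of_pos pd)
    · exact sign_neg (neg_neg_of_pos pe)
    · exact sign_pos one_pos
    · exact sign_zero
    · exact sign_zero
    · exact sign_zero
    · exact sign_zero
    · exact sign_neg (neg_neg_of_pos one_pos)
    · exact sign_pos ph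
    · exact sign_pos pk
    · exact sign_zero
    · exact sign_zero
  · rw [charpoly4]
    have e1 : N1 * L - β + E1 + -(N1 * L - β) = E1 := by ring
    have e2 : (N1 * L - β + E1) * -(N1 * L - β) - N1 * L * -(N1 * L - 2 * β + E1 + Q) - -1 * 0 =
        E2 := by
      linear_combination N1 * hLQ + hN1
    have e3 : 0 * (N1 * L * 1 - -1 * -(N1 * L - β)) + -1 * -1 * (N2 * L + E3) +
        1 * -1 * (N2 * L) = E3 := by ring
    have e4 : -1 * (-1 * (-(N1 * L - β) * (N2 * L + E3) - -(N1 * L - 2 * β + E1 + Q) * (N2 * L)) +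
        1 * ((N1 * L - β + E1) * (N2 * L) - N1 * L * (N2 * L + E3))) = E4 := by
      linear_combination N2 * hLQ + hN2
    rw [e1, e2, e3, e4]

theorem realize_M4_zero (r s : ℝ) :
    ∃ A : Matrix (Fin 4) (Fin 4) ℝ, Realizes A M4 ∧
      A.charpoly = X ^ 2 * ((X - C r) * (X - C s)) := by
  have a1 := neg_abs_le r
  have a2 := neg_abs_le s
  have b1 := abs_nonneg r
  have b2 := abs_nonneg s
  set e : ℝ := |r| + |s| + 1 with he
  have pe : 0 < e := by linarith
  have pb : 0 < e + r := by linarith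
  have pd : 0 < e + s := by linarith
  have pa : 0 < e + r + s := by linarith
  refine ⟨!![e + r + s, e + r, -1, 0; -(e + s), -e, 1, 0; 0, 0, 0, -1; 1, 1, 0, 0], ?_, ?_⟩
  · intro i j
    fin_cases i <;> fin_cases j
    · exact sign_pos pa
    · exact sign_pos pb
    · exact sign_neg (neg_neg_of_pos one_pos)
    · exact sign_zero
    · exact sign_neg (neg_neg_of_pos pd)
    · exact sign_neg (neg_neg_of_pos pe)
    · exact sign_pos one_pos
    · exact sign_zero
    · exact sign_zero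
    · exact sign_zero
    · exact sign_zero
    · exact sign_neg (neg_neg_of_pos one_pos)
    · exact sign_pos one_pos
    · exact sign_pos one_pos
    · exact sign_zero
    · exact sign_zero
  · rw [charpoly4]
    have e1 : e + r + s + -e = r + s := by ring
    have e2 : (e + r + s) * -e - (e + r) * -(e + s) - -1 * 0 = r * s := by ring
    have e3 : 0 * ((e + r) * 1 - -1 * -e) + -1 * -1 * 1 + 1 * -1 * 1 = (0 : ℝ) := by ring
    have e4 : -1 * (-1 * (-e * 1 - -(e + s) * 1) + 1 * ((e + r + s) * 1 - (e + r) * 1)) =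
        (0 : ℝ) := by ring
    rw [e1, e2, e3, e4]
    simp only [C_add, C_mul, C_0]
    ring

/-- The polynomial `q` is the characteristic polynomial of a realization of `M₄`. -/
def Good (q : ℝ[X]) : Prop :=
  ∃ A : Matrix (Fin 4) (Fin 4) ℝ, Realizes A M4 ∧ A.charpoly = q

theorem good_of_pos (E1 E2 E3 E4 : ℝ) (h : 0 < E4) :
    Good (X ^ 4 - C E1 * X ^ 3 + C E2 * X ^ 2 - C E3 * X + C E4) := by
  have a1 := abs_nonneg E1
  have a2 := abs_nonneg E2
  have b1 := le_abs_self E1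
  have b1' := neg_abs_le E1
  have b2 := neg_abs_le E2
  rcases le_or_gt E3 0 with h3 | h3
  · refine realize_M4 E1 E2 E3 E4 (|E1| + |E2| + 1) ?_ ?_
    · nlinarith [mul_nonneg a1 a2, mul_nonneg (sub_nonneg.2 b1) a1, mul_nonneg (sub_nonneg.2 b1) a2]
    · have : 0 ≤ -E3 * (|E1| + |E2| + 1) := mul_nonneg (by linarith) (by linarith)
      linarith
  · refine realize_M4 E1 E2 E3 E4 (-(|E1| + |E2| + 1)) ?_ ?_
    · have c1 : 0 ≤ E1 + |E1| := by linarith
      nlinarith [mul_nonneg a1 a2, mul_nonneg c1 a1, mul_nonneg c1 a2]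
    · have : 0 ≤ E3 * (|E1| + |E2| + 1) := mul_nonneg h3.le (by linarith)
      linarith

/-- A monic real quadratic polynomial. -/
noncomputable def quad (s t : ℝ) : ℝ[X] := X ^ 2 - C s * X + C t

theorem quad_monic (s t : ℝ) : IsMonicOfDegree (quad s t) 2 :=
  isMonicOfDegree_two_iff'.2 ⟨s, t, rfl⟩

theorem good_quad (s t s' t' : ℝ) (h : 0 < t * t') : Good (quad s t * quad s' t') := by
  have := good_of_pos (s + s') (t + t' + s * s') (s * t' + s' * t) (t * t') h
  convert this using 1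
  unfold quad
  simp only [C_add, C_mul]
  ring

theorem good_zero (r s : ℝ) : Good (quad r 0 * quad s 0) := by
  have := realize_M4_zero r s
  unfold Good quad
  convert this using 4
  simp only [C_0]
  ring

/-- The product of three quadratics has a good factor. -/
def Split (s₁ t₁ s₂ t₂ s₃ t₃ : ℝ) : Prop :=
  ∃ q r : ℝ[X], Good q ∧ IsMonicOfDegree r 2 ∧ quad s₁ t₁ * quad s₂ t₂ * quad s₃ t₃ = q * r

theorem split_core (s₁ s₂ t₂ s₃ t₃ : ℝ) (h2 : 0 < t₂) (h3 : t₃ < 0) :
    Split s₁ 0 s₂ t₂ s₃ t₃ := by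
  have hD : 0 ≤ s₃ ^ 2 - 4 * t₃ := by nlinarith [sq_nonneg s₃]
  set w : ℝ := Real.sqrt (s₃ ^ 2 - 4 * t₃) with hw
  have hw2 : w ^ 2 = s₃ ^ 2 - 4 * t₃ := Real.sq_sqrt hD
  have hw0 : 0 ≤ w := Real.sqrt_nonneg _
  have hws : |s₃| < w := by
    apply abs_lt_of_sq_lt_sq
    · nlinarith
    · exact hw0
  have hws1 := (abs_lt.1 hws).1
  have hws2 := (abs_lt.1 hws).2
  set α : ℝ := (s₃ - w) / 2 with hα
  set β : ℝ := (s₃ + w) / 2 with hβ
  have hα0 : α < 0 := by rw [hα]; linarith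
  have hβ0 : 0 < β := by rw [hβ]; linarith
  have hsum : s₃ = α + β := by rw [hα, hβ]; ring
  have hprod : t₃ = α * β := by rw [hα, hβ]; linear_combination (1 / 4 : ℝ) * hw2
  rcases lt_trichotomy s₁ 0 with h1 | h1 | h1
  · refine ⟨quad s₂ t₂ * quad (s₁ + α) (s₁ * α), quad β 0, good_quad _ _ _ _ ?_, quad_monic _ _, ?_⟩
    · exact mul_pos h2 (mul_pos_of_neg_of_neg h1 hα0)
    · rw [hsum, hprod]
      unfold quad
      simp only [C_add, C_mul, C_0]
      ring
  · refine ⟨quad α 0 * quad β 0, quad s₂ t₂, good_zero _ _, quad_monic _ _, ?_⟩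
    rw [hsum, hprod, h1]
    unfold quad
    simp only [C_add, C_mul, C_0]
    ring
  · refine ⟨quad s₂ t₂ * quad (s₁ + β) (s₁ * β), quad α 0, good_quad _ _ _ _ ?_, quad_monic _ _, ?_⟩
    · exact mul_pos h2 (mul_pos h1 hβ0)
    · rw [hsum, hprod]
      unfold quad
      simp only [C_add, C_mul, C_0]
      ring

theorem Split.swap12 {s₁ t₁ s₂ t₂ s₃ t₃ : ℝ} (h : Split s₁ t₁ s₂ t₂ s₃ t₃) :
    Split s₂ t₂ s₁ t₁ s₃ t₃ := by
  obtain ⟨q, r, hq, hr, e⟩ := h
  exact ⟨q, r, hq, hr, by rw [← e]; ring⟩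

theorem Split.swap23 {s₁ t₁ s₂ t₂ s₃ t₃ : ℝ} (h : Split s₁ t₁ s₂ t₂ s₃ t₃) :
    Split s₁ t₁ s₃ t₃ s₂ t₂ := by
  obtain ⟨q, r, hq, hr, e⟩ := h
  exact ⟨q, r, hq, hr, by rw [← e]; ring⟩

theorem split_pos (s₁ t₁ s₂ t₂ s₃ t₃ : ℝ) (h : 0 < t₁ * t₂) : Split s₁ t₁ s₂ t₂ s₃ t₃ :=
  ⟨quad s₁ t₁ * quad s₂ t₂, quad s₃ t₃, good_quad _ _ _ _ h, quad_monic _ _, rfl⟩

theorem split_zero (s₁ s₂ s₃ t₃ : ℝ) : Split s₁ 0 s₂ 0 s₃ t₃ :=
  ⟨quad s₁ 0 * quad s₂ 0, quad s₃ t₃, good_zero _ _, quad_monic _ _, rfl⟩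

theorem split_all (s₁ t₁ s₂ t₂ s₃ t₃ : ℝ) : Split s₁ t₁ s₂ t₂ s₃ t₃ := by
  rcases lt_trichotomy t₁ 0 with h1 | h1 | h1 <;> rcases lt_trichotomy t₂ 0 with h2 | h2 | h2 <;>
    rcases lt_trichotomy t₃ 0 with h3 | h3 | h3
  all_goals first
    | exact split_pos _ _ _ _ _ _ (mul_pos h1 h2)
    | exact split_pos _ _ _ _ _ _ (mul_pos_of_neg_of_neg h1 h2)
    | exact (split_pos s₁ t₁ s₃ t₃ s₂ t₂ (mul_pos h1 h3)).swap23
    | exact (split_pos s₁ t₁ s₃ t₃ s₂ t₂ (mul_pos_of_neg_of_neg h1 h3)).swap23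
    | exact (split_pos s₂ t₂ s₃ t₃ s₁ t₁ (mul_pos h2 h3)).swap23.swap12
    | exact (split_pos s₂ t₂ s₃ t₃ s₁ t₁ (mul_pos_of_neg_of_neg h2 h3)).swap23.swap12
    | (rw [h1, h2]; exact split_zero _ _ _ _)
    | (rw [h1, h3]; exact (split_zero s₁ s₃ s₂ t₂).swap23)
    | (rw [h2, h3]; exact (split_zero s₂ s₃ s₁ t₁).swap23.swap12)
    | (rw [h1]; exact split_core _ _ _ _ _ h2 h3)
    | (rw [h1]; exact (split_core _ _ _ _ _ h3 h2).swap23)
    | (rw [h2]; exact (split_core s₂ s₁ t₁ s₃ t₃ h1 h3).swap12)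
    | (rw [h2]; exact (split_core s₂ s₃ t₃ s₁ t₁ h3 h1).swap23.swap12)
    | (rw [h3]; exact (split_core s₃ s₁ t₁ s₂ t₂ h1 h2).swap12.swap23)
    | (rw [h3]; exact (split_core s₃ s₂ t₂ s₁ t₁ h2 h1).swap12.swap23.swap12)

theorem exists_good_factor {n : ℕ} (p : ℝ[X]) (hp : IsMonicOfDegree p (n + 6)) :
    ∃ q r : ℝ[X], Good q ∧ IsMonicOfDegree r (n + 2) ∧ p = q * r := by
  obtain ⟨f1, g1, hf1, hg1, e1⟩ := hp.eq_isMonicOfDegree_two_mul_isMonicOfDegree
  obtain ⟨f2, g2, hf2, hg2, e2⟩ := hg1.eq_isMonicOfDegree_two_mul_isMonicOfDegree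
  obtain ⟨f3, g3, hf3, hg3, e3⟩ := hg2.eq_isMonicOfDegree_two_mul_isMonicOfDegree
  obtain ⟨s1, t1, rfl⟩ := isMonicOfDegree_two_iff'.1 hf1
  obtain ⟨s2, t2, rfl⟩ := isMonicOfDegree_two_iff'.1 hf2
  obtain ⟨s3, t3, rfl⟩ := isMonicOfDegree_two_iff'.1 hf3
  obtain ⟨q, r, hq, hr, e⟩ := split_all s1 t1 s2 t2 s3 t3
  refine ⟨q, g3 * r, hq, hg3.mul hr, ?_⟩
  unfold quad at e
  rw [e1, e2, e3]
  linear_combination g3 * e

/-! ### Direct sums -/

theorem realizes_directSum {m n : ℕ} {P : Matrix (Fin m) (Fin m) SignType}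
    {Q : Matrix (Fin n) (Fin n) SignType} {A : Matrix (Fin m) (Fin m) ℝ}
    {B : Matrix (Fin n) (Fin n) ℝ} (hA : Realizes A P) (hB : Realizes B Q) :
    Realizes (Matrix.reindex finSumFinEquiv finSumFinEquiv (Matrix.fromBlocks A 0 0 B))
      (directSum P Q) := by
  intro i j
  obtain ⟨i, rfl⟩ := finSumFinEquiv.surjective i
  obtain ⟨j, rfl⟩ := finSumFinEquiv.surjective j
  unfold directSum
  rw [Matrix.reindex_apply, Matrix.reindex_apply, Matrix.submatrix_apply, Matrix.submatrix_apply,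
    Equiv.symm_apply_apply, Equiv.symm_apply_apply]
  rcases i with i | i <;> rcases j with j | j
  · exact hA i j
  · exact sign_zero
  · exact sign_zero
  · exact hB i j

theorem exists_blocks {m n : ℕ} {P : Matrix (Fin m) (Fin m) SignType}
    {Q : Matrix (Fin n) (Fin n) SignType} {A : Matrix (Fin (m + n)) (Fin (m + n)) ℝ}
    (hA : Realizes A (directSum P Q)) :
    ∃ (B : Matrix (Fin m) (Fin m) ℝ) (D : Matrix (Fin n) (Fin n) ℝ), Realizes B P ∧
      Realizes D Q ∧ A.charpoly = B.charpoly * D.charpoly := by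
  have hs : ∀ i j : Fin m ⊕ Fin n, SignType.sign (A (finSumFinEquiv i) (finSumFinEquiv j)) =
      Matrix.fromBlocks P 0 0 Q i j := by
    intro i j
    rw [hA]
    unfold directSum
    rw [Matrix.reindex_apply, Matrix.submatrix_apply, Equiv.symm_apply_apply,
      Equiv.symm_apply_apply]
  refine ⟨A.submatrix (fun i => finSumFinEquiv (Sum.inl i)) (fun i => finSumFinEquiv (Sum.inl i)),
    A.submatrix (fun i => finSumFinEquiv (Sum.inr i)) (fun i => finSumFinEquiv (Sum.inr i)),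
    fun i j => hs _ _, fun i j => hs _ _, ?_⟩
  rw [← Matrix.charpoly_fromBlocks_zero₁₂ (M₂₁ := 0), ← Matrix.charpoly_reindex finSumFinEquiv]
  congr 1
  ext i j
  obtain ⟨i, rfl⟩ := finSumFinEquiv.surjective i
  obtain ⟨j, rfl⟩ := finSumFinEquiv.surjective j
  rw [Matrix.reindex_apply, Matrix.submatrix_apply, Equiv.symm_apply_apply,
    Equiv.symm_apply_apply]
  rcases i with i | i <;> rcases j with j | j
  · rfl
  · exact sign_eq_zero_iff.1 (hs _ _)
  · exact sign_eq_zero_iff.1 (hs _ _)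
  · rfl

theorem sap_directSum_M4 {m : ℕ} (hm : 2 ≤ m) {X : Matrix (Fin m) (Fin m) SignType}
    (hX : SpectrallyArbitrary X) : SpectrallyArbitrary (directSum M4 X) := by
  intro p hp hd
  obtain ⟨n, rfl⟩ : ∃ n, m = n + 2 := ⟨m - 2, by omega⟩
  obtain ⟨q, r, ⟨A, hA, rfl⟩, hr, rfl⟩ := exists_good_factor (n := n) p
    (IsMonicOfDegree.mk (hd.trans (by omega)) hp)
  obtain ⟨B, hB, rfl⟩ := hX r hr.monic hr.natDegree_eq
  refine ⟨_, realizes_directSum hA hB, ?_⟩
  rw [Matrix.charpoly_reindex, Matrix.charpoly_fromBlocks_zero₁₂]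

theorem sap_directSum_T2 {m : ℕ} {X : Matrix (Fin m) (Fin m) SignType}
    (hX : SpectrallyArbitrary X) : SpectrallyArbitrary (directSum T2 X) := by
  intro p hp hd
  obtain ⟨q, r, hq, hr, rfl⟩ := (IsMonicOfDegree.mk (hd.trans (add_comm 2 m))
    hp).eq_isMonicOfDegree_two_mul_isMonicOfDegree
  obtain ⟨s, t, rfl⟩ := isMonicOfDegree_two_iff'.1 hq
  obtain ⟨A, hA, hA'⟩ := realize_T2 s t
  obtain ⟨B, hB, rfl⟩ := hX r hr.monic hr.natDegree_eq
  refine ⟨_, realizes_directSum hA hB, ?_⟩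
  rw [Matrix.charpoly_reindex, Matrix.charpoly_fromBlocks_zero₁₂, hA']

theorem sap_T2 : SpectrallyArbitrary T2 := by
  intro p hp hd
  obtain ⟨s, t, rfl⟩ := isMonicOfDegree_two_iff'.1 (IsMonicOfDegree.mk hd hp)
  exact realize_T2 s t

/-! ### No realization of `M4' ⊕ X` is nilpotent -/

theorem eq_zero_of_eq_X_pow (E1 E2 E3 E4 : ℝ)
    (h : (X ^ 4 - C E1 * X ^ 3 + C E2 * X ^ 2 - C E3 * X + C E4 : ℝ[X]) = X ^ 4) :
    E1 = 0 ∧ E2 = 0 ∧ E3 = 0 ∧ E4 = 0 := by
  have h0 := congrArg (eval 0) h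
  have h1 := congrArg (eval 1) h
  have h2 := congrArg (eval (-1)) h
  have h3 := congrArg (eval 2) h
  simp only [eval_add, eval_sub, eval_mul, eval_pow, eval_X, eval_C] at h0 h1 h2 h3
  norm_num at h0 h1 h2 h3
  refine ⟨?_, ?_, ?_, ?_⟩ <;> linarith

theorem amgm (x y z : ℝ) (hx : 0 < x) (hy : 0 < y) (hz : 0 < z) (h : z ^ 2 < x * y) :
    2 * z < x + y := by
  by_contra hc
  have hc' := not_lt.1 hc
  have : (x + y) * (x + y) ≤ 2 * z * (2 * z) := mul_le_mul hc' hc' (by linarith) (by linarith)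
  nlinarith [sq_nonneg (x - y)]

/-- The magnitudes of the entries of a nilpotent realization of `M4'` cannot exist. -/
theorem no_nilpotent (a b c d f g h k s : ℝ) (ha : 0 < a) (hb : 0 < b) (hc : 0 < c) (hd : 0 < d)
    (hf : 0 < f) (hg : 0 < g) (hk : 0 < k) (hs : 0 < s)
    (e2 : b * d = a ^ 2 + c * s) (e3 : g * (c * h - f * k) = s * (b * f - c * a))
    (e4 : h * (b * f - c * a) = k * (a * f - c * d)) : False := by
  have hW : 2 * (a * c * f) < f ^ 2 * b + c ^ 2 * d := by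
    apply amgm _ _ _ (by positivity) (by positivity) (by positivity)
    have : f ^ 2 * b * (c ^ 2 * d) = (a * c * f) ^ 2 + c ^ 2 * f ^ 2 * (c * s) := by
      linear_combination (f ^ 2 * c ^ 2) * e2
    rw [this]
    have : 0 < c ^ 2 * f ^ 2 * (c * s) := by positivity
    linarith
  have key : g * k * (f ^ 2 * b + c ^ 2 * d - 2 * (a * c * f)) + s * (b * f - c * a) ^ 2 = 0 := by
    linear_combination (-(b * f - c * a)) * e3 + (g * c) * e4
  have h1 : 0 < g * k * (f ^ 2 * b + c ^ 2 * d - 2 * (a * c * f)) :=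
    mul_pos (mul_pos hg hk) (by linarith)
  have h2 : 0 ≤ s * (b * f - c * a) ^ 2 := by positivity
  linarith

theorem M4'_charpoly_ne (A : Matrix (Fin 4) (Fin 4) ℝ) (hA : Realizes A M4') :
    A.charpoly ≠ X ^ 4 := by
  intro h
  have p : ∀ i j, M4' i j = 1 → 0 < A i j := fun i j h => sign_eq_one_iff.1 ((hA i j).trans h)
  have n : ∀ i j, M4' i j = -1 → A i j < 0 :=
    fun i j h => sign_eq_neg_one_iff.1 ((hA i j).trans h)
  have z : ∀ i j, M4' i j = 0 → A i j = 0 := fun i j h => sign_eq_zero_iff.1 ((hA i j).trans h)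
  have ha := p 0 0 rfl
  have hb := p 0 1 rfl
  have hc := n 0 2 rfl
  have hd := n 1 0 rfl
  have hf := p 1 2 rfl
  have hs := n 2 0 rfl
  have hg := n 2 3 rfl
  have hk := p 3 1 rfl
  have hA' : A = !![A 0 0, A 0 1, A 0 2, 0; A 1 0, A 1 1, A 1 2, 0; A 2 0, 0, 0, A 2 3;
      A 3 0, A 3 1, 0, 0] := by
    ext i j
    fin_cases i <;> fin_cases j <;> first
      | rfl
      | exact z _ _ rfl
  rw [hA', charpoly4] at h
  obtain ⟨c1, c2, c3, c4⟩ := eq_zero_of_eq_X_pow _ _ _ _ h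
  have c4' := (mul_eq_zero.1 c4).resolve_left hg.ne
  have he : A 1 1 = - A 0 0 := by linarith
  rw [he] at c2 c3 c4'
  refine no_nilpotent (A 0 0) (A 0 1) (-(A 0 2)) (-(A 1 0)) (A 1 2) (-(A 2 3)) (A 3 0) (A 3 1)
    (-(A 2 0)) ha hb (neg_pos.2 hc) (neg_pos.2 hd) hf (neg_pos.2 hg) hk (neg_pos.2 hs) ?_ ?_ ?_
  · linear_combination c2
  · linear_combination c3
  · linear_combination (-1 : ℝ) * c4'

theorem charpoly_of_isNilpotent {n : ℕ} (A : Matrix (Fin n) (Fin n) ℝ) (h : IsNilpotent A) :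
    A.charpoly = X ^ n := by
  have h1 := Matrix.isNilpotent_charpoly_sub_pow_of_isNilpotent h
  have h2 := h1.eq_zero
  rw [Fintype.card_fin] at h2
  exact sub_eq_zero.1 h2

theorem directSum_charpoly_ne {m : ℕ} {X' : Matrix (Fin m) (Fin m) SignType}
    (A : Matrix (Fin (4 + m)) (Fin (4 + m)) ℝ) (hA : Realizes A (directSum M4' X')) :
    A.charpoly ≠ X ^ (4 + m) := by
  intro h
  obtain ⟨B, D, hB, -, e⟩ := exists_blocks hA
  have h1 : B.charpoly ∣ X ^ (4 + m) := ⟨D.charpoly, by rw [← h, e]⟩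
  obtain ⟨i, -, hi⟩ := (dvd_prime_pow prime_X _).1 h1
  have h2 : B.charpoly = X ^ i := eq_of_monic_of_associated B.charpoly_monic (monic_X_pow i) hi
  have h3 : i = 4 := by
    have := B.charpoly_natDegree_eq_dim
    rw [h2, natDegree_X_pow, Fintype.card_fin] at this
    exact this
  rw [h3] at h2
  exact M4'_charpoly_ne B hB h2

/-! ### The patterns of order 6 -/

theorem S_eq : S = directSum M4 T2 := by
  decide

theorem S'_eq : S' = directSum M4' T2 := by
  decide

/-! ### Spectrally arbitrary patterns of every order at least 2 -/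

theorem charpoly3 (a b c d f g : ℝ) :
    (!![a, b, 0; c, 0, d; 0, f, g] : Matrix (Fin 3) (Fin 3) ℝ).charpoly =
      X ^ 3 - C (a + g) * X ^ 2 + C (a * g - b * c - d * f) * X + C (a * d * f + b * c * g) := by
  have h1 : charmatrix (!![a, b, 0; c, 0, d; 0, f, g] : Matrix (Fin 3) (Fin 3) ℝ) =
      !![X - C a, -C b, 0; -C c, X, -C d; 0, -C f, X - C g] := by
    ext i j : 2
    fin_cases i <;> fin_cases j <;> simp
  rw [Matrix.charpoly, h1, Matrix.det_fin_three]
  simp
  ring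

theorem realize_T3 (u1 u2 u3 : ℝ) :
    ∃ A : Matrix (Fin 3) (Fin 3) ℝ, Realizes A T3 ∧
      A.charpoly = X ^ 3 + C u1 * X ^ 2 + C u2 * X + C u3 := by
  set g : ℝ := |u1| + |u2| + |u3| + 1 with hg
  set a : ℝ := g - u1 with ha
  set N : ℝ := u2 + a * g with hN
  have n1 := abs_nonneg u1
  have n2 := abs_nonneg u2
  have n3 := abs_nonneg u3
  have l1 := le_abs_self u1
  have l2 := neg_abs_le u2
  have l3 := neg_abs_le u3
  have l3' := le_abs_self u3
  have hg1 : 1 + |u2| + |u3| ≤ g := by rw [hg]; linarith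
  have ha1 : 1 + |u2| + |u3| ≤ a := by rw [ha, hg]; linarith
  have hag : (1 + |u2| + |u3|) * (1 + |u2| + |u3|) ≤ a * g :=
    mul_le_mul ha1 hg1 (by linarith) (by linarith)
  have hN1 : 1 + |u3| ≤ N := by rw [hN]; nlinarith
  have haN : 1 + |u3| ≤ a * N := by nlinarith
  have hgN : 1 + |u3| ≤ g * N := by nlinarith
  have hsum : 0 < a + g := by linarith
  have hc : 0 < (u3 + a * N) / (a + g) := div_pos (by linarith) hsum
  have hf : 0 < (g * N - u3) / (a + g) := div_pos (by linarith) hsum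
  refine ⟨!![a, 1, 0; -((u3 + a * N) / (a + g)), 0, 1; 0, -((g * N - u3) / (a + g)), -g], ?_, ?_⟩
  · have ha0 : 0 < a := by linarith
    have hg0 : 0 < g := by linarith
    intro i j
    fin_cases i <;> fin_cases j
    · exact sign_pos ha0
    · exact sign_pos one_pos
    · exact sign_zero
    · exact sign_neg (neg_neg_of_pos hc)
    · exact sign_zero
    · exact sign_pos one_pos
    · exact sign_zero
    · exact sign_neg (neg_neg_of_pos hf)
    · exact sign_neg (neg_neg_of_pos hg0)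
  · rw [charpoly3]
    have h1 : -(a + -g) = u1 := by rw [ha]; ring
    have h2 : a * -g - 1 * -((u3 + a * N) / (a + g)) - 1 * -((g * N - u3) / (a + g)) = u2 := by
      have : (u3 + a * N) / (a + g) + (g * N - u3) / (a + g) = N := by
        rw [← add_div, show u3 + a * N + (g * N - u3) = N * (a + g) by ring]
        exact mul_div_cancel_right₀ _ hsum.ne'
      linarith
    have h3 : a * 1 * -((g * N - u3) / (a + g)) + 1 * -((u3 + a * N) / (a + g)) * -g = u3 := by
      have : g * ((u3 + a * N) / (a + g)) - a * ((g * N - u3) / (a + g)) = u3 := by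
        rw [← mul_div_assoc, ← mul_div_assoc, ← sub_div,
          show g * (u3 + a * N) - a * (g * N - u3) = u3 * (a + g) by ring]
        exact mul_div_cancel_right₀ _ hsum.ne'
      linarith
    rw [h2, h3, ← h1, C_neg]
    ring

theorem sap_T3 : SpectrallyArbitrary T3 := by
  intro p hp hd
  obtain ⟨q, r, hq, hr, rfl⟩ := (IsMonicOfDegree.mk (n := 1 + 2) hd
    hp).eq_isMonicOfDegree_two_mul_isMonicOfDegree
  obtain ⟨s, t, rfl⟩ := isMonicOfDegree_two_iff'.1 hq
  obtain ⟨c, rfl⟩ := isMonicOfDegree_one_iff.1 hr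
  obtain ⟨A, hA, hA'⟩ := realize_T3 (c - s) (t - s * c) (t * c)
  refine ⟨A, hA, ?_⟩
  rw [hA']
  simp only [C_sub, C_mul]
  ring

theorem exists_sap (m : ℕ) : ∃ X : Matrix (Fin (m + 2)) (Fin (m + 2)) SignType,
    SpectrallyArbitrary X := by
  induction m using Nat.strong_induction_on with
  | _ m ih =>
    match m with
    | 0 => exact ⟨T2, sap_T2⟩
    | 1 => exact ⟨T3, sap_T3⟩
    | m + 2 =>
      obtain ⟨X, hX⟩ := ih m (by omega)
      have h := sap_directSum_T2 hX
      have e : 2 + (m + 2) = m + 2 + 2 := by omega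
      rw [← e]
      exact ⟨_, h⟩

/-! ### The result -/

/-- `Q` is obtained from `P` by replacing one zero entry by a minus sign. -/
def OneMoreMinus {n : ℕ} (Q P : Matrix (Fin n) (Fin n) SignType) : Prop :=
  ∃ i₀ j₀, P i₀ j₀ = 0 ∧ Q i₀ j₀ = -1 ∧ ∀ i j, (i, j) ≠ (i₀, j₀) → Q i j = P i j

theorem OneMoreMinus.isSuperpattern {n : ℕ} {Q P : Matrix (Fin n) (Fin n) SignType}
    (h : OneMoreMinus Q P) : IsSuperpattern Q P := by
  obtain ⟨i₀, j₀, h1, -, h2⟩ := h
  intro i j hij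
  refine h2 i j fun e => hij ?_
  obtain ⟨rfl, rfl⟩ := Prod.mk.inj e
  exact h1

theorem oneMoreMinus_M4 : OneMoreMinus M4' M4 := by
  refine ⟨2, 0, rfl, rfl, fun i j h => ?_⟩
  fin_cases i <;> fin_cases j <;> first
    | rfl
    | exact absurd rfl h

theorem oneMoreMinus_directSum {m : ℕ} (Y : Matrix (Fin m) (Fin m) SignType) :
    OneMoreMinus (directSum M4' Y) (directSum M4 Y) := by
  obtain ⟨i₀, j₀, h1, h2, h3⟩ := oneMoreMinus_M4
  refine ⟨finSumFinEquiv (Sum.inl i₀), finSumFinEquiv (Sum.inl j₀), ?_, ?_, ?_⟩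
  · unfold directSum
    rw [Matrix.reindex_apply, Matrix.submatrix_apply, Equiv.symm_apply_apply,
      Equiv.symm_apply_apply]
    exact h1
  · unfold directSum
    rw [Matrix.reindex_apply, Matrix.submatrix_apply, Equiv.symm_apply_apply,
      Equiv.symm_apply_apply]
    exact h2
  · intro i j hij
    obtain ⟨i, rfl⟩ := finSumFinEquiv.surjective i
    obtain ⟨j, rfl⟩ := finSumFinEquiv.surjective j
    unfold directSum
    rw [Matrix.reindex_apply, Matrix.submatrix_apply, Matrix.reindex_apply,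
      Matrix.submatrix_apply, Equiv.symm_apply_apply, Equiv.symm_apply_apply]
    rcases i with i | i <;> rcases j with j | j
    · refine h3 i j fun e => hij ?_
      obtain ⟨rfl, rfl⟩ := Prod.mk.inj e
      rfl
    · rfl
    · rfl
    · rfl

theorem not_nilpotent {m : ℕ} (Y : Matrix (Fin m) (Fin m) SignType)
    (A : Matrix (Fin (4 + m)) (Fin (4 + m)) ℝ) (hA : Realizes A (directSum M4' Y)) :
    ¬ IsNilpotent A :=
  fun h => directSum_charpoly_ne A hA (charpoly_of_isNilpotent A h)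

theorem not_sap {m : ℕ} (Y : Matrix (Fin m) (Fin m) SignType) :
    ¬ SpectrallyArbitrary (directSum M4' Y) := by
  intro h
  obtain ⟨A, hA, e⟩ := h (X ^ (4 + m)) (monic_X_pow _) (natDegree_X_pow _)
  exact directSum_charpoly_ne A hA e

/-- For every spectrally arbitrary pattern `Y` of order at least 2 the pattern `M₄ ⊕ Y` is
spectrally arbitrary, and its superpattern `M₄' ⊕ Y` has no nilpotent realization. -/
theorem main {m : ℕ} (Y : Matrix (Fin m) (Fin m) SignType) (hm : 2 ≤ m)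
    (hY : SpectrallyArbitrary Y) :
    SpectrallyArbitrary (directSum M4 Y) ∧
      IsSuperpattern (directSum M4' Y) (directSum M4 Y) ∧
      OneMoreMinus (directSum M4' Y) (directSum M4 Y) ∧
      (∀ A : Matrix (Fin (4 + m)) (Fin (4 + m)) ℝ,
        Realizes A (directSum M4' Y) → ¬ IsNilpotent A) ∧
      ¬ SpectrallyArbitrary (directSum M4' Y) :=
  ⟨sap_directSum_M4 hm hY, (oneMoreMinus_directSum Y).isSuperpattern, oneMoreMinus_directSum Y,
    not_nilpotent Y, not_sap Y⟩

/-- **There is a spectrally arbitrary sign pattern with a superpattern that is not spectrally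
arbitrary.** The pattern `S = M₄ ⊕ T₂` of order 6 is spectrally arbitrary, and its superpattern
`S'`, which has one more minus sign, is not: it has no nilpotent realization.  There are such
patterns of every order `n ≥ 6`. -/
theorem result :
    (SpectrallyArbitrary S ∧ IsSuperpattern S' S ∧ OneMoreMinus S' S ∧
      (∀ A : Matrix (Fin 6) (Fin 6) ℝ, Realizes A S' → ¬ IsNilpotent A) ∧
      ¬ SpectrallyArbitrary S') ∧
    ∀ n : ℕ, 6 ≤ n → ∃ P Q : Matrix (Fin n) (Fin n) SignType,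
      SpectrallyArbitrary P ∧ IsSuperpattern Q P ∧ OneMoreMinus Q P ∧
      (∀ A : Matrix (Fin n) (Fin n) ℝ, Realizes A Q → ¬ IsNilpotent A) ∧
      ¬ SpectrallyArbitrary Q := by
  refine ⟨?_, ?_⟩
  · rw [S_eq, S'_eq]
    exact main T2 le_rfl sap_T2
  · intro n hn
    obtain ⟨m, rfl⟩ : ∃ m, n = 4 + (m + 2) := ⟨n - 6, by omega⟩
    obtain ⟨Y, hY⟩ := exists_sap m
    exact ⟨directSum M4 Y, directSum M4' Y, main Y (by omega) hY⟩

end Pool.Agent.Results.MP_557f7f_co.SpectralSuperpattern
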